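import Pool.Agent.MP_776d16_ag.H34G.SL
import Pool.Agent.MP_776d16_ag.H34.PT

/-! Smooth lifting for systems whose coefficients are polynomials. -/

namespace Pool.Agent.MP_776d16_ag.H36T

open Polynomial Pool.Agent.MP_776d16_ag.H34 Pool.Agent.MP_776d16_ag.H34G
open Pool.Agent.MP_776d16_ag.H34.SLA (fam_map fam_add fam_smul)
open Pool.Agent.MP_776d16_ag.H34G.SLA2 (taylor fam_mul)
open MvPolynomial (pderiv)

namespace SL3

section
variable {R ι β : Type} [CommRing R] [Fintype ι] (a : β → MvPolynomial ι R[X]) (k : ι → ℕ)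
  (p : β → ∀ i, Fin (k i) → R[X]) (pos : β → ℕ)

/-- value of the system -/
noncomputable def Fv (B : Type) [CommRing B] [Algebra R B] (x : ∀ i, Fin (k i) → B) (b : β) : B :=
  (MvPolynomial.eval (fun i => fam 0 (p b i) B (x i))
    (MvPolynomial.map (mapRingHom (algebraMap R B)) (a b))).coeff (pos b)

/-- tangent map of the system -/
noncomputable def Jl (B : Type) [CommRing B] [Algebra R B] (x : ∀ i, Fin (k i) → B) (b : β) :
    (∀ i, Fin (k i) → B) →ₗ[B] B where
  toFun h := (∑ i, MvPolynomial.eval (fun i => fam 0 (p b i) B (x i))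
      (MvPolynomial.map (mapRingHom (algebraMap R B)) (pderiv i (a b))) *
        fam 0 (p b i) B (h i)).coeff (pos b)
  map_add' h h' := by
    simp only [Pi.add_apply, fam_add, mul_add, Finset.sum_add_distrib, coeff_add]
  map_smul' c h := by
    simp only [Pi.smul_apply, fam_smul, RingHom.id_apply, smul_eq_mul]
    rw [← coeff_C_mul, Finset.mul_sum]
    congr 1
    exact Finset.sum_congr rfl fun i _ => by ring

variable {B B' : Type} [CommRing B] [Algebra R B] [CommRing B'] [Algebra R B']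

omit [Fintype ι] in
lemma ev_map (φ : B →ₐ[R] B') (x : ∀ i, Fin (k i) → B) (b : β) (F : MvPolynomial ι R[X]) :
    (MvPolynomial.eval (fun i => fam 0 (p b i) B (x i))
      (MvPolynomial.map (mapRingHom (algebraMap R B)) F)).map (φ : B →+* B') =
    MvPolynomial.eval (fun i => fam 0 (p b i) B' (fun l => φ (x i l)))
      (MvPolynomial.map (mapRingHom (algebraMap R B')) F) := by
  have h : (φ : B →+* B').comp (algebraMap R B) = algebraMap R B' := φ.comp_algebraMap
  rw [← coe_mapRingHom, ← eval_map_hom, MvPolynomial.map_map, mapRingHom_comp, h]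
  simp only [coe_mapRingHom, fam_map]

omit [Fintype ι] in
lemma Fv_map (φ : B →ₐ[R] B') (x : ∀ i, Fin (k i) → B) (b : β) :
    φ (Fv a k p pos B x b) = Fv a k p pos B' (fun i l => φ (x i l)) b := by
  have : φ (Fv a k p pos B x b) = (φ : B →+* B') (Fv a k p pos B x b) := rfl
  rw [this, Fv, ← coeff_map, ev_map, Fv]

lemma Jl_map (φ : B →ₐ[R] B') (x h : ∀ i, Fin (k i) → B) (b : β) :
    φ (Jl a k p pos B x b h) =
      Jl a k p pos B' (fun i l => φ (x i l)) b (fun i l => φ (h i l)) := by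
  have : φ (Jl a k p pos B x b h) = (φ : B →+* B') (Jl a k p pos B x b h) := rfl
  rw [this]
  simp only [Jl, LinearMap.coe_mk, AddHom.coe_mk]
  rw [← coeff_map, Polynomial.map_sum]
  simp only [Polynomial.map_mul, fam_map, ev_map]

lemma Fv_add (x h : ∀ i, Fin (k i) → B) (hh : ∀ i l i' l', h i l * h i' l' = 0) (b : β) :
    Fv a k p pos B (x + h) b = Fv a k p pos B x b + Jl a k p pos B x b h := by
  simp only [Fv, Jl, LinearMap.coe_mk, AddHom.coe_mk]
  have h1 : (fun i => fam 0 (p b i) B ((x + h) i)) = (fun i => fam 0 (p b i) B (x i)) +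
      fun i => fam 0 (p b i) B (h i) := by
    funext i
    simp only [Pi.add_apply, fam_add]
  have h2 := taylor (K := B[X]) (fun i => fam 0 (p b i) B (x i)) (fun i => fam 0 (p b i) B (h i))
    (fun i i' => fam_mul _ _ _ _ (hh i · i')) (MvPolynomial.map (mapRingHom (algebraMap R B)) (a b))
  simp only [MvPolynomial.aeval_eq_eval, MvPolynomial.pderiv_map] at h2
  rw [← coeff_add, h1, h2]

variable [Fintype β] [DecidableEq β]

/-- a solution together with a right inverse of the tangent map -/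
def Pt (B : Type) [CommRing B] [Algebra R B] (x : ∀ i, Fin (k i) → B)
    (Y : β → ∀ i, Fin (k i) → B) : Prop :=
  (∀ b, Fv a k p pos B x b = 0) ∧
    ∀ c b, Jl a k p pos B x b (Y c) = if c = b then 1 else 0

omit [Fintype β] in
lemma Pt.map (φ : B →ₐ[R] B') {x : ∀ i, Fin (k i) → B} {Y : β → ∀ i, Fin (k i) → B}
    (h : Pt a k p pos B x Y) :
    Pt a k p pos B' (fun i l => φ (x i l)) (fun c i l => φ (Y c i l)) := by
  refine ⟨fun b => ?_, fun c b => ?_⟩
  · rw [← Fv_map, h.1, map_zero]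
  · rw [← Jl_map, h.2]; split_ifs <;> simp

lemma newton (I : Ideal B) (hI : I ^ 2 = ⊥) (x : ∀ i, Fin (k i) → B ⧸ I)
    (Y : β → ∀ i, Fin (k i) → B ⧸ I) (h : Pt a k p pos (B ⧸ I) x Y) :
    ∃ (x' : ∀ i, Fin (k i) → B) (Y' : β → ∀ i, Fin (k i) → B), Pt a k p pos B x' Y' ∧
      (∀ i l, Ideal.Quotient.mkₐ R I (x' i l) = x i l) ∧
      ∀ c i l, Ideal.Quotient.mkₐ R I (Y' c i l) = Y c i l := by
  have hmul : ∀ u ∈ I, ∀ v ∈ I, u * v = 0 := by
    intro u hu v hv
    have : u * v ∈ I ^ 2 := by rw [sq]; exact Ideal.mul_mem_mul hu hv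
    rwa [hI, Ideal.mem_bot] at this
  have hsurj := Ideal.Quotient.mkₐ_surjective R I
  choose x1 hx1 using fun i l => hsurj (x i l)
  choose Y1 hY1 using fun c i l => hsurj (Y c i l)
  have hmem : ∀ u : B, Ideal.Quotient.mkₐ R I u = 0 ↔ u ∈ I := fun u => by
    rw [Ideal.Quotient.mkₐ_eq_mk, Ideal.Quotient.eq_zero_iff_mem]
  -- errors of the tangent equations, for any lift
  have hG : ∀ x2 : ∀ i, Fin (k i) → B, (∀ i l, Ideal.Quotient.mkₐ R I (x2 i l) = x i l) →
      ∀ c b, Jl a k p pos B x2 b (Y1 c) - (if c = b then 1 else 0) ∈ I := by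
    intro x2 hx2 c b
    rw [← hmem, map_sub, Jl_map]
    simp only [hx2, hY1]
    rw [h.2]; split_ifs <;> simp
  set E : β → B := fun b => Fv a k p pos B x1 b with hE
  have hEI : ∀ b, E b ∈ I := by
    intro b
    rw [← hmem, hE]
    simp only [Fv_map, hx1]
    rw [h.1]
  set H : ∀ i, Fin (k i) → B := -∑ c, E c • Y1 c with hH
  have hHI : ∀ i l, H i l ∈ I := by
    intro i l
    simp only [hH, Pi.neg_apply, Finset.sum_apply, Pi.smul_apply, smul_eq_mul]
    exact I.neg_mem (I.sum_mem fun c _ => I.mul_mem_right _ (hEI c))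
  have hx2 : ∀ i l, Ideal.Quotient.mkₐ R I ((x1 + H) i l) = x i l := by
    intro i l
    rw [Pi.add_apply, Pi.add_apply, map_add, hx1, (hmem _).2 (hHI i l), add_zero]
  set G : β → β → B := fun c b =>
    Jl a k p pos B (x1 + H) b (Y1 c) - (if c = b then 1 else 0) with hGdef
  have hGI : ∀ c b, G c b ∈ I := hG _ hx2
  refine ⟨x1 + H, fun c => Y1 c - ∑ c', G c c' • Y1 c', ⟨fun b => ?_, fun c b => ?_⟩, hx2, ?_⟩
  · rw [Fv_add _ _ _ _ _ _ fun i l i' l' => hmul _ (hHI i l) _ (hHI i' l'), hH, map_neg,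
      map_sum]
    have : ∀ c, Jl a k p pos B x1 b (E c • Y1 c) = if c = b then E b else 0 := by
      intro c
      have h1 := hmul _ (hEI c) _ (hG x1 hx1 c b)
      rw [map_smul, smul_eq_mul]
      split_ifs at h1 ⊢ with hc
      · subst hc; linear_combination h1
      · linear_combination h1
    simp only [this, Finset.sum_ite_eq', Finset.mem_univ, if_true]
    simp only [hE]
    ring
  · rw [map_sub, map_sum]
    have : ∀ c', Jl a k p pos B (x1 + H) b (G c c' • Y1 c') = if c' = b then G c b else 0 := by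
      intro c'
      have h1 := hmul _ (hGI c c') _ (hGI c' b)
      rw [map_smul, smul_eq_mul]
      have h2 : G c' b = Jl a k p pos B (x1 + H) b (Y1 c') - (if c' = b then 1 else 0) := rfl
      rw [h2] at h1
      split_ifs at h1 ⊢ with hc
      · subst hc; linear_combination h1
      · linear_combination h1
    simp only [this, Finset.sum_ite_eq', Finset.mem_univ, if_true]
    simp only [hGdef]
    ring
  · intro c i l
    have : (∑ c', G c c' • Y1 c') i l ∈ I := by
      simp only [Finset.sum_apply, Pi.smul_apply, smul_eq_mul]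
      exact I.sum_mem fun c' _ => I.mul_mem_right _ (hGI c c')
    change Ideal.Quotient.mkₐ R I (Y1 c i l - (∑ c', G c c' • Y1 c') i l) = _
    rw [map_sub, hY1, (hmem _).2 this, sub_zero]

/-- variables of the universal algebra -/
abbrev Var (β : Type) {ι : Type} (k : ι → ℕ) : Type := Option β × (Σ i, Fin (k i))

/-- relations of the universal algebra -/
noncomputable def rel : Option β × β → MvPolynomial (Var β k) R
  | (none, b) => Fv a k p pos _ (fun i l => MvPolynomial.X (none, ⟨i, l⟩)) b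
  | (some c, b) => Jl a k p pos _ (fun i l => MvPolynomial.X (none, ⟨i, l⟩)) b
      (fun i l => MvPolynomial.X (some c, ⟨i, l⟩)) - if c = b then 1 else 0

/-- the universal algebra -/
abbrev UA : Type := MvPolynomial (Var β k) R ⧸ Ideal.span (Set.range (rel a k p pos))

/-- universal solution -/
noncomputable def ux (o : Option β) (i : ι) (l : Fin (k i)) : UA a k p pos :=
  Ideal.Quotient.mkₐ R _ (MvPolynomial.X (o, ⟨i, l⟩))

omit [Fintype β] in
lemma ux_pt : Pt a k p pos (UA a k p pos) (ux a k p pos none)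
    (fun c => ux a k p pos (some c)) := by
  have h0 : ∀ j, Ideal.Quotient.mkₐ R (Ideal.span (Set.range (rel a k p pos)))
      (rel a k p pos j) = 0 := fun j => by
    rw [Ideal.Quotient.mkₐ_eq_mk, Ideal.Quotient.eq_zero_iff_mem]
    exact Ideal.subset_span ⟨j, rfl⟩
  refine ⟨fun b => ?_, fun c b => ?_⟩
  · have := h0 (none, b)
    rw [rel, Fv_map] at this
    exact this
  · have := h0 (some c, b)
    rw [rel, map_sub, Jl_map, sub_eq_zero] at this
    refine this.trans ?_
    split_ifs <;> simp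

omit [Fintype β] in
lemma ux_lift {x : ∀ i, Fin (k i) → B} {Y : β → ∀ i, Fin (k i) → B}
    (h : Pt a k p pos B x Y) : ∃ f : UA a k p pos →ₐ[R] B,
      (∀ i l, f (ux a k p pos none i l) = x i l) ∧
      ∀ c i l, f (ux a k p pos (some c) i l) = Y c i l := by
  let g : MvPolynomial (Var β k) R →ₐ[R] B :=
    MvPolynomial.aeval fun v => v.1.elim (x v.2.1 v.2.2) fun c => Y c v.2.1 v.2.2
  have hg : ∀ u ∈ Ideal.span (Set.range (rel a k p pos)), g u = 0 := by
    intro u hu
    have : Ideal.span (Set.range (rel a k p pos)) ≤ RingHom.ker g := by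
      rw [Ideal.span_le]
      rintro _ ⟨⟨o, b⟩, rfl⟩
      rw [SetLike.mem_coe, RingHom.mem_ker]
      rcases o with _ | c
      · rw [rel, Fv_map]
        simpa [g] using h.1 b
      · rw [rel, map_sub, Jl_map, sub_eq_zero]
        have h2 := h.2 c b
        simp only [g, MvPolynomial.aeval_X, Option.elim]
        refine h2.trans ?_
        split_ifs <;> simp
    exact this hu
  refine ⟨Ideal.Quotient.liftₐ _ g hg, fun i l => ?_, fun c i l => ?_⟩ <;> simp [ux, g]

lemma ua_smooth : Algebra.Smooth R (UA a k p pos) where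
  formallySmooth := by
    refine Algebra.FormallySmooth.of_comp_surjective fun B _ _ I hI g => ?_
    obtain ⟨x', Y', hpt, hx, hY⟩ := newton a k p pos I hI _ _
      ((ux_pt a k p pos).map a k p pos g)
    obtain ⟨f, hf1, hf2⟩ := ux_lift a k p pos hpt
    refine ⟨f, Ideal.Quotient.algHom_ext _ (MvPolynomial.algHom_ext ?_)⟩
    rintro ⟨o, i, l⟩
    rcases o with _ | c
    · exact (congrArg (Ideal.Quotient.mkₐ R I) (hf1 i l)).trans (hx i l)
    · exact (congrArg (Ideal.Quotient.mkₐ R I) (hf2 c i l)).trans (hY c i l)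
  finitePresentation :=
    Algebra.FinitePresentation.quotient (Submodule.fg_span (Set.finite_range _))

end

/-- the specialised family -/
noncomputable def fm {n : ℕ} (p : Fin n → ℂ[X][X]) (l : ℂ) (x : Fin n → ℂ) : ℂ[X] :=
  ∑ j, C (x j) * (p j).map (evalRingHom l)

/-- a solution at the parameter `l` at which the tangent map is onto -/
def Sol {ι β : Type} [Fintype ι] (a : β → MvPolynomial ι ℂ[X][X]) (k : ι → ℕ)
    (p : β → ∀ i, Fin (k i) → ℂ[X][X]) (pos : β → ℕ) (l : ℂ) (x : ∀ i, Fin (k i) → ℂ) : Prop :=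
  (∀ b, (MvPolynomial.eval (fun i => fm (p b i) l (x i))
    (MvPolynomial.map (mapRingHom (evalRingHom l)) (a b))).coeff (pos b) = 0) ∧
  ∀ v : β → ℂ, ∃ h : ∀ i, Fin (k i) → ℂ, ∀ b,
    (∑ i, MvPolynomial.eval (fun i => fm (p b i) l (x i))
      (MvPolynomial.map (mapRingHom (evalRingHom l)) (pderiv i (a b))) *
        fm (p b i) l (h i)).coeff (pos b) = v b

theorem deform {ι β : Type} [Fintype ι] [Fintype β] (a : β → MvPolynomial ι ℂ[X][X]) (k : ι → ℕ)
    (p : β → ∀ i, Fin (k i) → ℂ[X][X]) (pos : β → ℕ) (x0 : ∀ i, Fin (k i) → ℂ)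
    (h0 : Sol a k p pos 0 x0) : ∃ l, l ≠ 0 ∧ ∃ x, Sol a k p pos l x := by
  classical
  have key : ∀ l : ℂ, letI : Algebra ℂ[X] ℂ := (evalRingHom l).toAlgebra
      ∀ x, Sol a k p pos l x ↔ ∃ Y, Pt a k p pos ℂ x Y := by
    intro l
    let _ : Algebra ℂ[X] ℂ := (evalRingHom l).toAlgebra
    intro x
    have hf : ∀ {n : ℕ} (q : Fin n → ℂ[X][X]) (y : Fin n → ℂ), fm q l y = fam 0 q ℂ y := by
      intro n q y
      rw [fam, Polynomial.map_zero, zero_add]; rfl
    simp only [Sol, hf]
    constructor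
    · rintro ⟨h1, h2⟩
      choose Y hY using fun c : β => h2 (fun b => if c = b then 1 else 0)
      exact ⟨Y, h1, fun c b => hY c b⟩
    · rintro ⟨Y, h1, h2⟩
      refine ⟨h1, fun v => ⟨∑ c, v c • Y c, fun b => ?_⟩⟩
      change Jl a k p pos ℂ x b _ = _
      rw [map_sum]
      simp only [map_smul, smul_eq_mul, h2]
      simp
  have hs := ua_smooth a k p pos
  have hu := ux_pt a k p pos
  obtain ⟨φ⟩ : Nonempty (UA a k p pos →+* ℂ) := by
    let _ : Algebra ℂ[X] ℂ := (evalRingHom 0).toAlgebra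
    obtain ⟨Y, hY⟩ := (key 0 x0).1 h0
    obtain ⟨φ, -⟩ := ux_lift a k p pos hY
    exact ⟨φ⟩
  obtain ⟨l, ψ, hl, -, hψ⟩ := ptD (UA a k p pos) inferInstance inferInstance 1 φ (by simp)
  let _ : Algebra ℂ[X] ℂ := (evalRingHom l).toAlgebra
  let ψ' : UA a k p pos →ₐ[ℂ[X]] ℂ := { ψ with commutes' := hψ }
  exact ⟨l, hl, _, (key l _).2 ⟨_, hu.map a k p pos ψ'⟩⟩

end SL3

end Pool.Agent.MP_776d16_ag.H36T
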