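import Pool.Agent.MP_776d16_ag.H34T.Spec
import Pool.Agent.MP_776d16_ag.H36T.SL3

/-! Row Upgrade: smoothing a tail with a ramified very free curve of the boundary. -/

set_option linter.unusedSectionVars false

namespace Pool.Agent.MP_776d16_ag.H36T

open Polynomial Finset Pool.Agent.MP_776d16_ag.H34 Pool.Agent.MP_776d16_ag.H34.GlueA
open Pool.Agent.MP_776d16_ag.H34G Pool.Agent.MP_776d16_ag.H34T SL3
open MvPolynomial (pderiv IsWeightedHomogeneous)

namespace UpA

section
variable {ι S S' : Type} [CommRing S] [CommRing S'] [Algebra ℂ S] [Algebra ℂ S']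

/-- the polynomial `G (z + lam X)` -/
noncomputable def Ph (z : Option ι → S) (lam : S) (G : MvPolynomial (Option ι) ℂ) :
    MvPolynomial ι S :=
  MvPolynomial.aeval
    (fun o => MvPolynomial.C (z o) + MvPolynomial.C lam * o.elim 0 MvPolynomial.X) G

lemma ev_Ph (ψ : S →+* S') (hψ : ∀ c, ψ (algebraMap ℂ S c) = algebraMap ℂ S' c) (h : ι → S')
    (z : Option ι → S) (lam : S) (G : MvPolynomial (Option ι) ℂ) :
    MvPolynomial.eval h (MvPolynomial.map ψ (Ph z lam G)) =
      MvPolynomial.aeval (fun o => ψ (z o) + ψ lam * o.elim 0 h) G := by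
  unfold Ph
  induction G using MvPolynomial.induction_on with
  | C c => simp [MvPolynomial.algebraMap_apply, hψ]
  | add p q hp hq => simp only [map_add, hp, hq]
  | mul_X p o hp =>
    simp only [map_mul, hp, MvPolynomial.aeval_X]
    rcases o with _ | i <;> simp

lemma pd_Ph (z : Option ι → S) (lam : S) (G : MvPolynomial (Option ι) ℂ) (i : ι) :
    pderiv i (Ph z lam G) = MvPolynomial.C lam * Ph z lam (pderiv (some i) G) := by
  classical
  unfold Ph
  induction G using MvPolynomial.induction_on with
  | C c => simp [MvPolynomial.algebraMap_apply]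
  | add p q hp hq => simp only [map_add, hp, hq, mul_add]
  | mul_X p o hp =>
    simp only [map_mul, Derivation.leibniz, smul_eq_mul, map_add, hp, MvPolynomial.aeval_X,
      MvPolynomial.pderiv_C, mul_zero, add_zero, zero_add]
    rcases o with _ | i'
    · rw [MvPolynomial.pderiv_X_of_ne (by simp)]
      simp only [Option.elim, map_zero]
      ring
    · by_cases hi : i' = i
      · subst hi
        simp only [Option.elim, MvPolynomial.pderiv_X_self, map_one]
        ring
      · rw [MvPolynomial.pderiv_X_of_ne (by simpa using hi)]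
        simp only [Option.elim, MvPolynomial.pderiv_X_of_ne hi, map_zero]
        ring

lemma dvd_aeval {σ : Type} (c : S) (z z' : σ → S) (h : ∀ o, c ∣ z' o - z o)
    (G : MvPolynomial σ ℂ) : c ∣ MvPolynomial.aeval z' G - MvPolynomial.aeval z G := by
  induction G using MvPolynomial.induction_on with
  | C c => simp
  | add p q hp hq =>
    have := dvd_add hp hq
    rw [map_add, map_add]
    exact this.trans (dvd_of_eq (by ring))
  | mul_X p o hp =>
    have := dvd_add (hp.mul_right (z' o)) ((h o).mul_left (MvPolynomial.aeval z p))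
    rw [map_mul, map_mul, MvPolynomial.aeval_X, MvPolynomial.aeval_X]
    exact this.trans (dvd_of_eq (by ring))

/-- the divided equation -/
lemma divided [IsDomain S] (a : Option ι → S) (H : ι → S) (lam η : S) (hl : lam ≠ 0)
    (G : MvPolynomial (Option ι) ℂ) (ha : MvPolynomial.aeval a G = 0) :
    ∃ G1 : MvPolynomial ι S,
      MvPolynomial.C lam * G1 = Ph (fun o => a o + lam * η * o.elim 0 H) lam G ∧
      (∀ i, pderiv i G1 = Ph (fun o => a o + lam * η * o.elim 0 H) lam (pderiv (some i) G)) ∧
      η ∣ MvPolynomial.eval 0 G1 := by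
  have h0 : MvPolynomial.aeval (fun o => (MvPolynomial.C (a o) : MvPolynomial ι S)) G = 0 := by
    have := MvPolynomial.comp_aeval_apply (f := a) (IsScalarTower.toAlgHom ℂ S (MvPolynomial ι S)) G
    rw [ha, map_zero] at this
    exact this.symm
  obtain ⟨G1, h1⟩ := dvd_aeval (MvPolynomial.C lam : MvPolynomial ι S)
    (fun o => MvPolynomial.C (a o))
    (fun o => MvPolynomial.C (a o + lam * η * o.elim 0 H) +
      MvPolynomial.C lam * o.elim 0 MvPolynomial.X)
    (fun o => ⟨MvPolynomial.C (η * o.elim 0 H) + o.elim 0 MvPolynomial.X, by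
      simp only [map_add, map_mul]; ring⟩) G
  rw [h0, sub_zero] at h1
  have h2 : MvPolynomial.C lam * G1 = Ph (fun o => a o + lam * η * o.elim 0 H) lam G := h1.symm
  refine ⟨G1, h2, fun i => ?_, ?_⟩
  · have := congrArg (pderiv i) h2
    rw [pd_Ph, MvPolynomial.pderiv_C_mul] at this
    exact mul_left_cancel₀ (MvPolynomial.C_ne_zero.2 hl) this
  · obtain ⟨G2, h3⟩ := dvd_aeval (lam * η) a (fun o => a o + lam * η * o.elim 0 H)
      (fun o => ⟨o.elim 0 H, by ring⟩) G
    have h4 := ev_Ph (RingHom.id S) (fun _ => rfl) 0 (fun o => a o + lam * η * o.elim 0 H) lam G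
    have h5 : (fun o : Option ι => RingHom.id S (a o + lam * η * o.elim 0 H) +
        RingHom.id S lam * o.elim 0 (0 : ι → S)) = fun o => a o + lam * η * o.elim 0 H := by
      funext o
      rcases o with _ | i <;> simp
    rw [MvPolynomial.map_id, ← h2, map_mul, MvPolynomial.eval_C, h5] at h4
    rw [ha, sub_zero, ← h4, mul_assoc] at h3
    exact ⟨G2, mul_left_cancel₀ hl h3⟩

end

lemma fmP {n n' m : ℕ} (hm : m + 1 = n + n') (l : ℂ) (x : Fin m → ℂ) :
    fm (fun b : Fin m => monomial (b + 1) (X ^ (n - (b + 1)))) l x =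
      PP n n' l (GlueA.ext 0 0 x) := by
  let _ : Algebra ℂ[X] ℂ := (evalRingHom l).toAlgebra
  have := famP0 ℂ (X : ℂ[X]) hm x
  rw [fam, Polynomial.map_zero, zero_add, show algebraMap ℂ[X] ℂ X = l from eval_X] at this
  exact this

lemma fmQ {n n' m : ℕ} (hm : m + 1 = n + n') (l : ℂ) (x : Fin m → ℂ) :
    fm (fun b : Fin m => monomial (n + n' - (b + 1)) (X ^ (b + 1 - n))) l x =
      QQ n n' l (GlueA.ext 0 0 x) := by
  let _ : Algebra ℂ[X] ℂ := (evalRingHom l).toAlgebra
  have := famQ0 ℂ (X : ℂ[X]) hm x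
  rw [fam, Polynomial.map_zero, zero_add, show algebraMap ℂ[X] ℂ X = l from eval_X] at this
  exact this

lemma QQ_split {n n' j : ℕ} (hj : j < n') (l : ℂ) {y q : ℂ[X]} (hq : q.natDegree ≤ n)
    (hy : ∀ b, 0 < b → b ≤ j → y.coeff b = 0) : QQ n n' l (sp n y q) = X ^ n' * q +
      C (l ^ j) * C l * QQ (j + 1) (n' - (j + 1)) l fun b => if b = 0 then 0 else y.coeff b := by
  ext k
  have e : j + 1 + (n' - (j + 1)) = n' := by omega
  rw [coeff_add, ← C_mul, coeff_C_mul, QQ_coeff, QQ_coeff, coeff_X_pow_mul', e, sp]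
  rcases Nat.lt_or_ge k n' with h | h
  · rw [if_pos (by omega), if_neg (by omega), if_neg (by omega), if_pos h.le, if_neg (by omega),
      show n + n' - k - n = n' - k by omega, zero_add]
    rcases Nat.lt_or_ge j (n' - k) with h' | h'
    · rw [← mul_assoc, ← pow_succ, ← pow_add]
      congr 2; omega
    · rw [hy _ (by omega) h']; simp
  · have e2 : (if k ≤ n' then l ^ (n' - (j + 1) - k) *
        (if n' - k = 0 then 0 else y.coeff (n' - k)) else 0) = 0 := by
      rw [if_pos (show n' - k = 0 by omega)]; simp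
    rw [e2, mul_zero, add_zero, if_pos h]
    split_ifs with h1 h2
    · rw [show n' - k = 0 by omega, pow_zero, one_mul]
      congr 1; omega
    · omega
    · exact (coeff_eq_zero_of_natDegree_lt (by omega)).symm

lemma tang {ι : Type} [Fintype ι] {L : ι → ℂ[X]} {N : ℕ} {n : ι → ℕ} (hn : ∀ i, 0 < n i)
    (hL : ∀ i, (L i).natDegree < N) (hO : Onto L (N - 1) fun i => n i - 1) {h : ι → ℂ}
    (hh : ∑ i, (L i).coeff 0 * h i = 1) (S : ℂ[X]) (hS : ∀ j, N ≤ j → S.coeff j = 0) :
    ∃ hp : ι → ℂ[X], (∀ i j, n i ≤ j → (hp i).coeff j = 0) ∧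
      (∀ i, (hp i).coeff 0 = S.coeff 0 * h i) ∧ ∑ i, L i * hp i = S := by
  set F : ℂ[X] := S - ∑ i, L i * C (S.coeff 0 * h i) with hF
  have F0 : F.coeff 0 = 0 := by
    have : ∀ i, (L i * C (S.coeff 0 * h i)).coeff 0 = S.coeff 0 * ((L i).coeff 0 * h i) :=
      fun i => by rw [coeff_mul_C]; ring
    rw [hF, coeff_sub, finsetSum_coeff]
    simp only [this]
    rw [← mul_sum, hh, mul_one, sub_self]
  have F1 : ∀ j, N ≤ j → F.coeff j = 0 := by
    intro j hj
    rw [hF, coeff_sub, hS j hj, finsetSum_coeff, sum_eq_zero, sub_zero]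
    intro i _
    rw [coeff_mul_C, coeff_eq_zero_of_natDegree_lt ((hL i).trans_le hj), zero_mul]
  obtain ⟨h', d', e'⟩ := hO F.divX (by
    rw [degree_lt_iff_coeff_zero]
    intro j hj
    rw [coeff_divX]
    exact F1 _ (by omega))
  refine ⟨fun i => C (S.coeff 0 * h i) + X * h' i, fun i j hj => ?_, fun i => by simp, ?_⟩
  · have := hn i
    obtain ⟨j, rfl⟩ : ∃ k, j = k + 1 := ⟨j - 1, by omega⟩
    rw [coeff_add, coeff_C_succ, coeff_X_mul, zero_add]
    exact (degree_lt_iff_coeff_zero _ _).1 (d' i) j (by dsimp only; omega)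
  · have e2 : X * F.divX = F := by
      have := X_mul_divX_add F
      rwa [F0, C_0, add_zero] at this
    have e3 : S = F + ∑ i, L i * C (S.coeff 0 * h i) := by rw [hF]; ring
    refine Eq.trans ?_ e3.symm
    rw [← e2, e', mul_sum, ← sum_add_distrib]
    exact sum_congr rfl fun i _ => by ring

/-- comparison of the two sheets -/
lemma flipH {σ : Type} {W : σ → ℕ} {δ e E : ℕ} {Γ : MvPolynomial σ ℂ}
    (hΓ : IsWeightedHomogeneous W Γ δ) {P Q : σ → ℂ[X]} {l t : ℂ}
    (h : ∀ o, t ^ (E * W o) * (P o).eval (l / t) = l ^ (e * W o) * (Q o).eval t) :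
    t ^ (E * δ) * (MvPolynomial.aeval P Γ).eval (l / t) =
      l ^ (e * δ) * (MvPolynomial.aeval Q Γ).eval t := by
  rw [eval_aeval_poly, eval_aeval_poly, pow_mul, pow_mul, ← eval_scale hΓ, ← eval_scale hΓ]
  simp only [← pow_mul, h]

end UpA

open UpA in
theorem upgrade : Upgrade := by
  intro ι _ W d e1 e2 j hW he1 hj hj2 G hG q y v r π dq q0 q1 qG qn qO dy y0 y1 yG yn yj yO
    ⟨h, hh⟩
  have hd : 0 < d := by have := hW.two; omega
  have hn1 : ∀ o, 0 < e1 * W o := fun o => Nat.mul_pos he1 (hW.pos o)
  have hN1 : 0 < e1 * d := Nat.mul_pos he1 hd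
  have aw : ∀ e i, e * (d - W (some i)) + e * W (some i) = e * d := fun e i => by
    rw [← mul_add, Nat.sub_add_cancel (hW.lt i).le]
  obtain ⟨i0⟩ : Nonempty ι := by
    by_contra hc
    rw [not_nonempty_iff] at hc
    simp at hh
  have hjd : j < e2 * d := by have := aw e2 i0; have := hj2 i0; omega
  have he2 : 0 < e2 := Nat.pos_of_mul_pos_right (show 0 < e2 * d by omega)
  have hD := fun i => homog_pderiv hG (some i) (hW.lt i).le
  have Er : MvPolynomial.eval r G = 0 := by
    rw [← funext q1, ← coeff_top_aeval hG dq, qG, coeff_zero]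
  have Eπ : MvPolynomial.eval π G = 0 := by
    rw [← funext y1, ← coeff_top_aeval hG dy, yG, coeff_zero]
  have πn : π none = 0 := by rw [← y1, yn, coeff_zero]
  obtain ⟨n, hn⟩ : ∃ n : ι → ℕ, ∀ i, n i = e1 * W (some i) + j := ⟨_, fun _ => rfl⟩
  obtain ⟨n', hn'⟩ : ∃ n' : ι → ℕ, ∀ i, n' i + j = e2 * W (some i) :=
    ⟨fun i => e2 * W (some i) - j, fun i => by have := hj2 i; dsimp only; omega⟩
  obtain ⟨m, hm⟩ : ∃ m : ι → ℕ, ∀ i, m i + 1 = n i + n' i :=
    ⟨fun i => n i + n' i - 1, fun i => by have := hn i; dsimp only; omega⟩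
  obtain ⟨N', hN'⟩ : ∃ N', N' + j = e2 * d := ⟨e2 * d - j, by omega⟩
  have hψ : ∀ l c : ℂ, mapRingHom (evalRingHom l) (algebraMap ℂ ℂ[X][X] c) = algebraMap ℂ ℂ[X] c :=
    fun l c => by simp [Polynomial.algebraMap_apply]
  -- the two sheets
  let cP : ι → ℕ → ℂ := fun i => sp (e1 * W (some i)) (y (some i)) (q (some i))
  let y' : ι → ℕ → ℂ := fun i b => if b = 0 then 0 else (y (some i)).coeff b
  let P0 : Option ι → ℂ[X][X] := fun o => o.elim (C (C (r none) * X ^ (e1 * W none)))
    fun i => PP (e1 * W (some i)) (e2 * W (some i)) X fun b => C (cP i b)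
  let P : ℂ → (∀ i, Fin (m i) → ℂ) → Option ι → ℂ[X] := fun l x o =>
    o.elim (C (r none * l ^ (e1 * W none))) fun i =>
      PP (e1 * W (some i)) (e2 * W (some i)) l (cP i) + PP (n i) (n' i) l (GlueA.ext 0 0 (x i))
  let Q : ℂ → (∀ i, Fin (m i) → ℂ) → Option ι → ℂ[X] := fun l x o =>
    o.elim (X ^ (e2 * W none) * q none) fun i => QQ (e1 * W (some i)) (e2 * W (some i)) l (cP i) +
      C (l ^ j) * QQ (n i) (n' i) l (GlueA.ext 0 0 (x i))
  obtain ⟨G1, g1, g2, g3⟩ := divided (S := ℂ[X][X]) (fun o => ((X ^ e2) ^ W o * q o).map C)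
    (fun i => QQ (j + 1) (e2 * W (some i) - (j + 1)) X fun b => C (y' i b)) (C (X ^ j)) (C X)
    (C_ne_zero.2 (pow_ne_zero _ X_ne_zero)) G (by
      have := MvPolynomial.comp_aeval_apply (f := fun o => (X ^ e2) ^ W o * q o)
        (mapAlgHom (Algebra.ofId ℂ ℂ[X])) G
      rw [aeval_scale hG, qG, mul_zero, map_zero] at this
      exact this.symm)
  have eP : ∀ (l : ℂ) (x : ∀ i, Fin (m i) → ℂ) (Γ : MvPolynomial (Option ι) ℂ),
      MvPolynomial.eval (fun i => PP (n i) (n' i) l (GlueA.ext 0 0 (x i)))
        (MvPolynomial.map (mapRingHom (evalRingHom l)) (Ph P0 1 Γ)) =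
      MvPolynomial.aeval (P l x) Γ := by
    intro l x Γ
    rw [ev_Ph _ (hψ l)]
    congr 2
    funext o
    rcases o with _ | i
    · simp [P0, P]
    · simp [P0, P, PP_map]
  have eQ : ∀ (l : ℂ) (x : ∀ i, Fin (m i) → ℂ) (Γ : MvPolynomial (Option ι) ℂ),
      MvPolynomial.eval (fun i => QQ (n i) (n' i) l (GlueA.ext 0 0 (x i)))
        (MvPolynomial.map (mapRingHom (evalRingHom l)) (Ph (fun o => ((X ^ e2) ^ W o * q o).map C +
          C (X ^ j) * C X * o.elim 0 fun i => QQ (j + 1) (e2 * W (some i) - (j + 1)) X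
            fun b => C (y' i b)) (C (X ^ j)) Γ)) = MvPolynomial.aeval (Q l x) Γ := by
    intro l x Γ
    have hc : (evalRingHom l).comp C = RingHom.id ℂ := RingHom.ext fun c => by simp
    rw [ev_Ph _ (hψ l)]
    congr 2
    funext o
    rcases o with _ | i
    · simp only [Q, Option.elim, mul_zero, add_zero, coe_mapRingHom, Polynomial.map_map, hc,
        Polynomial.map_id, pow_mul]
    · simp only [Q, cP, Option.elim, coe_mapRingHom, Polynomial.map_map, hc, Polynomial.map_add,
        Polynomial.map_id, map_C, coe_evalRingHom, eval_pow, eval_X,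
        QQ_split (hj2 i) l (dq _) (yj _), pow_mul, y']
      simp only [Polynomial.map_mul, map_C, QQ_map, coe_evalRingHom, eval_pow, eval_X, eval_C]
  have v0 : ∀ o, (y o).coeff 0 = (q o).coeff 0 := fun o => by rw [q0, y0]
  have z0 : ∀ (k : ℕ) (b : ℕ), GlueA.ext (0 : ℂ) 0 (0 : Fin k → ℂ) b = 0 := fun k b => by
    simp [GlueA.ext]
  have spP : P 0 0 = fun o => (X ^ e1) ^ W o * y o := by
    funext o
    rw [← pow_mul]
    rcases o with _ | i
    · simp [P, yn, (hn1 none).ne']
    · have : PP (n i) (n' i) (0 : ℂ) (GlueA.ext 0 0 (0 : Fin (m i) → ℂ)) = 0 := by simp [PP, z0]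
      simp only [P, Option.elim, Pi.zero_apply, this, add_zero]
      exact PP_zero (v0 _) (dy _) fun _ _ => rfl
  have spQ : Q 0 0 = fun o => (X ^ e2) ^ W o * q o := by
    funext o
    rw [← pow_mul]
    rcases o with _ | i
    · rfl
    · simp only [Q, Option.elim, zero_pow hj.ne', C_0, zero_mul, add_zero]
      exact QQ_zero (dq _) fun _ _ => rfl
  obtain ⟨l, hl, x, hs, ht⟩ := deform (β := Fin (e1 * d + e2 * d - 1))
    (fun b => if e1 * d + j ≤ b + 1 then Ph P0 1 G else G1) m
    (fun b => if e1 * d + j ≤ b + 1 then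
        fun i (a : Fin (m i)) => monomial (a + 1) (X ^ (n i - (a + 1)))
      else fun i (a : Fin (m i)) => monomial (n i + n' i - (a + 1)) (X ^ (a + 1 - n i)))
    (fun b => if e1 * d + j ≤ b + 1 then b + 1 else e1 * d + e2 * d - (b + 1)) 0 (by
      constructor
      · intro b
        by_cases hb : e1 * d + j ≤ b + 1
        · simp only [if_pos hb, fmP (hm _)]
          rw [eP, spP, aeval_scale hG, yG, mul_zero, coeff_zero]
        · obtain ⟨G2, g4⟩ := g3
          have := eval_map_hom (mapRingHom (evalRingHom (0 : ℂ))) 0 G1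
          simp only [Pi.zero_apply, map_zero] at this
          simp only [if_neg hb, fm, Pi.zero_apply, C_0, zero_mul, sum_const_zero]
          rw [this, g4]
          simp
      · intro u
        let u' : ℕ → ℂ := fun J => if hJ : J - 1 < e1 * d + e2 * d - 1 then u ⟨J - 1, hJ⟩ else 0
        have hu' : ∀ b : Fin (e1 * d + e2 * d - 1), u' (b + 1) = u b := fun b => by simp [u']
        obtain ⟨hp, dp, cp, ep⟩ := tang (N := N') (n := n') (h := h)
          (L := fun i => MvPolynomial.aeval y (pderiv (some i) G))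
          (fun i => by have := hn' i; have := hj2 i; omega)
          (fun i => by
            have := natDegree_aeval_le (hD i) dy
            have := aw e2 i; have := hj2 i; omega)
          (by
            rw [show N' = e2 * d - j by omega, show (fun i => n' i - 1) =
              fun i => e2 * W (some i) - j - 1 from funext fun i => by have := hn' i; omega]
            exact yO)
          (by simpa only [coeff_zero_aeval, y0] using hh)
          (∑ a ∈ range N', monomial a (u' (e1 * d + j + a))) (fun a ha => by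
            simp only [finsetSum_coeff, coeff_monomial, sum_ite_eq', mem_range]
            exact if_neg (by omega))
        obtain ⟨hq, dq', cq, eq⟩ := tang (N := e1 * d + j) (n := n) (h := h)
          (L := fun i => MvPolynomial.aeval q (pderiv (some i) G))
          (fun i => by have := hn i; omega)
          (fun i => by
            have := natDegree_aeval_le (hD i) dq
            have := aw e1 i; omega)
          (by simpa only [hn] using qO)
          (by simpa only [coeff_zero_aeval, q0] using hh)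
          (∑ a ∈ range (e1 * d + j), monomial a (u' (e1 * d + j - a))) (fun a ha => by
            simp only [finsetSum_coeff, coeff_monomial, sum_ite_eq', mem_range]
            exact if_neg (by omega))
        have c0 : ∀ i, (hp i).coeff 0 = (hq i).coeff 0 := fun i => by
          rw [cp, cq]
          simp [coeff_monomial, hj, show 0 < N' by omega]
        have hs : ∀ i, ∀ a ≤ n i + n' i, GlueA.ext 0 0
            (fun b : Fin (m i) => sp (n i) (hp i) (hq i) (b + 1)) a = sp (n i) (hp i) (hq i) a :=
          fun i a ha => by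
          have s0 : sp (n i) (hp i) (hq i) 0 = 0 := by simp [sp, dq']
          have s1 : sp (n i) (hp i) (hq i) (m i + 1) = 0 := by
            have := hn' i; have := hj2 i
            rw [sp, hm i, if_neg (by omega), Nat.add_sub_cancel_left, dp i _ le_rfl]
          have := ext_eq (m := m i) (sp (n i) (hp i) (hq i)) (j := a) (by rw [hm i]; exact ha)
          rwa [s0, s1] at this
        have dp1 : ∀ i, (hp i).natDegree ≤ n' i := fun i =>
          natDegree_le_iff_coeff_eq_zero.2 fun a ha => dp i a ha.le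
        have dq1 : ∀ i, (hq i).natDegree ≤ n i := fun i =>
          natDegree_le_iff_coeff_eq_zero.2 fun a ha => dq' i a ha.le
        refine ⟨fun i b => sp (n i) (hp i) (hq i) (b + 1), fun b => ?_⟩
        have hb2 := b.2
        by_cases hb : e1 * d + j ≤ b + 1
        · simp only [if_pos hb, fmP (hm _), pd_Ph, map_one, one_mul, eP,
            PP_zero (c0 _) (dp1 _) (hs _), spP]
          have : ∀ i, MvPolynomial.aeval (fun o => (X ^ e1) ^ W o * y o) (pderiv (some i) G) *
              (X ^ n i * hp i) = X ^ (e1 * d + j) *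
                (MvPolynomial.aeval y (pderiv (some i) G) * hp i) := fun i => by
            rw [aeval_scale (hD i), ← aw e1 i, hn, ← pow_mul]
            ring
          simp only [this]
          rw [← mul_sum, ep, coeff_X_pow_mul', if_pos hb]
          simp only [finsetSum_coeff, coeff_monomial, sum_ite_eq', mem_range]
          rw [if_pos (by omega), ← hu']
          congr 1; omega
        · simp only [if_neg hb, fmQ (hm _), g2, eQ, QQ_zero (dq1 _) (hs _), spQ]
          have : ∀ i, MvPolynomial.aeval (fun o => (X ^ e2) ^ W o * q o) (pderiv (some i) G) *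
              (X ^ n' i * hq i) = X ^ N' *
                (MvPolynomial.aeval q (pderiv (some i) G) * hq i) := fun i => by
            rw [aeval_scale (hD i), ← pow_mul, show N' = e2 * (d - W (some i)) + n' i by
              have := aw e2 i; have := hn' i; omega]
            ring
          simp only [this]
          rw [← mul_sum, eq, coeff_X_pow_mul', if_pos (by omega)]
          simp only [finsetSum_coeff, coeff_monomial, sum_ite_eq', mem_range]
          rw [if_pos (by omega), ← hu']
          congr 1; omega)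
  have nn : ∀ i, n i + n' i = (e1 + e2) * W (some i) := fun i => by
    have := hn i; have := hn' i; rw [add_mul]; omega
  have dP : ∀ o, (P l x o).natDegree ≤ (e1 + e2) * W o := by
    rintro (_ | i)
    · simp only [P, Option.elim, natDegree_C, Nat.zero_le]
    · exact natDegree_add_le_of_degree_le ((PP_deg _ _ _ _).trans (add_mul _ _ _).ge)
        ((PP_deg _ _ _ _).trans (nn i).le)
  have P0' : ∀ o, (P l x o).coeff 0 = (l ^ e1) ^ W o * r o := by
    rintro (_ | i)
    · simp only [P, Option.elim, coeff_C_zero, pow_mul, mul_comm]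
    · simp [P, PP_coeff, ext_zero, cP, sp, q1, pow_mul]
  have P1' : ∀ o, (P l x o).coeff ((e1 + e2) * W o) = π o := by
    rintro (_ | i)
    · have : (e1 + e2) * W none ≠ 0 := by have := hn1 none; rw [add_mul]; omega
      simp only [P, Option.elim, πn]
      exact coeff_C_of_ne_zero this
    · have := hj2 i
      simp only [P, Option.elim, coeff_add, PP_coeff]
      rw [if_pos (nn i).ge, ← nn i, ← hm i, ext_top, hm i, nn i, add_mul, if_pos le_rfl]
      simp only [cP, sp]
      rw [if_neg (by omega), Nat.add_sub_cancel_left, y1]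
      simp
  have fl : ∀ t : ℂ, t ≠ 0 → ∀ o, t ^ ((e1 + e2) * W o) * (P l x o).eval (l / t) =
      l ^ (e1 * W o) * (Q l x o).eval t := by
    rintro t ht (_ | i)
    · simp only [P, Q, Option.elim, qn, eval_mul, eval_pow, eval_C, eval_X, add_mul]
      ring
    · have h1 := PQ_eval (e1 * W (some i)) (e2 * W (some i)) l (cP i) ht
      have h2 := PQ_eval (n i) (n' i) l (GlueA.ext 0 0 (x i)) ht
      rw [nn i] at h2
      rw [← add_mul] at h1
      simp only [P, Q, Option.elim, eval_add, eval_mul, eval_C]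
      rw [mul_add, h1, h2]
      have h3 : l ^ n i = l ^ (e1 * W (some i)) * l ^ j := by rw [hn, pow_add]
      rw [h3]
      ring
  refine ⟨l ^ e1, P l x, pow_ne_zero _ hl, ⟨by omega, dP, P0', P1', ?_, fun f hf => ?_⟩,
    by simp only [P, Option.elim, pow_mul, mul_comm]⟩
  · have dG := natDegree_aeval_le hG dP
    ext J
    rw [coeff_zero]
    rcases Nat.lt_or_ge ((e1 + e2) * d) J with h1 | h1
    · exact coeff_eq_zero_of_natDegree_lt (by omega)
    rcases h1.eq_or_lt with rfl | h1
    · rw [coeff_top_aeval hG dP, funext P1', Eπ]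
    rcases J with _ | J
    · rw [coeff_zero_aeval, funext P0', eval_scale hG, Er, mul_zero]
    rw [add_mul] at h1
    have h2 := hs ⟨J, by omega⟩
    by_cases hb : e1 * d + j ≤ J + 1
    · simpa only [if_pos hb, fmP (hm _), eP] using h2
    · simp only [if_neg hb, fmQ (hm _)] at h2
      have h3 := coeff_flip dG (fun t ht => flipH hG (fl t ht)) (J := J + 1)
        (by rw [add_mul]; omega)
      rw [← eQ, ← g1, map_mul, map_mul, MvPolynomial.map_C, MvPolynomial.eval_C, coe_mapRingHom,
        map_C, coeff_C_mul, add_mul, h2, mul_zero, mul_zero] at h3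
      exact (mul_eq_zero.1 h3).resolve_left (pow_ne_zero _ hl)
  · obtain ⟨k, hk⟩ := ht fun b => if e1 * d + j ≤ b + 1 then f.coeff b
      else l ^ (b + 1 : ℕ) * f.coeff b / l ^ (e1 * d + j)
    set hP : ι → ℂ[X] := fun i => PP (n i) (n' i) l (GlueA.ext 0 0 (k i)) with hPd
    have h0 : ∀ i, X * (hP i).divX = hP i := fun i => by
      have := X_mul_divX_add (hP i)
      rwa [show (hP i).coeff 0 = 0 by simp [hPd, PP_coeff, ext_zero], C_0, add_zero] at this
    have h1 : ∀ i, ((hP i).divX).degree < (((e1 + e2) * W (some i) - 1 : ℕ) : WithBot ℕ) :=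
      fun i => by
      rw [degree_lt_iff_coeff_zero]
      intro a ha
      rw [coeff_divX, hPd, PP_coeff]
      split_ifs with h2
      · rw [show a + 1 = m i + 1 by have := nn i; have := hm i; omega, ext_top, mul_zero]
      · rfl
    refine ⟨fun i => (hP i).divX, h1, ?_⟩
    set S := ∑ i, MvPolynomial.aeval (P l x) (pderiv (some i) G) * (hP i).divX with hS
    have hXS : X * S = ∑ i, MvPolynomial.aeval (P l x) (pderiv (some i) G) * hP i := by
      rw [hS, mul_sum]
      exact sum_congr rfl fun i _ => by rw [mul_left_comm, h0]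
    have dS : S.degree < (((e1 + e2) * d - 1 : ℕ) : WithBot ℕ) := by
      rw [hS, ← mem_degreeLT]
      refine Submodule.sum_mem _ fun i _ => mem_degreeLT.2 ?_
      have h2 := natDegree_aeval_le (hD i) dP
      have h3 := aw (e1 + e2) i
      have h4 := nn i
      have h5 := hm i
      refine (degree_mul_le _ _).trans_lt ?_
      refine (add_le_add_left (degree_le_of_natDegree_le h2) _).trans_lt ?_
      refine (WithBot.add_lt_add_left (WithBot.natCast_ne_bot _) (h1 i)).trans_le ?_
      rw [← Nat.cast_add, Nat.cast_le]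
      omega
    ext J
    rcases Nat.lt_or_ge J ((e1 + e2) * d - 1) with h2 | h2
    swap
    · rw [(degree_lt_iff_coeff_zero _ _).1 hf J h2, (degree_lt_iff_coeff_zero _ _).1 dS J h2]
    rw [add_mul] at h2
    have h3 := hk ⟨J, h2⟩
    rw [← coeff_X_mul S, hXS]
    by_cases hb : e1 * d + j ≤ J + 1
    · simp only [if_pos hb, fmP (hm _), pd_Ph, map_one, one_mul, eP] at h3
      exact h3.symm
    · simp only [if_neg hb, fmQ (hm _), g2, eQ] at h3
      have h4 := coeff_flip (F := ∑ i, MvPolynomial.aeval (P l x) (pderiv (some i) G) * hP i)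
        (G := ∑ i, MvPolynomial.aeval (Q l x) (pderiv (some i) G) *
          QQ (n i) (n' i) l (GlueA.ext 0 0 (k i))) (T := e1 * d + e2 * d) (ε := l)
        (c := l ^ (e1 * d + j)) (by
          rw [← hXS, natDegree_le_iff_coeff_eq_zero]
          intro a ha
          obtain ⟨a, rfl⟩ : ∃ b, a = b + 1 := ⟨a - 1, by omega⟩
          rw [coeff_X_mul]
          exact (degree_lt_iff_coeff_zero _ _).1 dS a (by rw [add_mul]; omega))
        (fun t ht => by
          simp only [eval_finsetSum, eval_mul, mul_sum]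
          refine sum_congr rfl fun i _ => ?_
          have h5 := flipH (hD i) (fl t ht)
          have h6 := PQ_eval (n i) (n' i) l (GlueA.ext 0 0 (k i)) ht
          have e3 : t ^ (e1 * d + e2 * d) = t ^ ((e1 + e2) * (d - W (some i))) * t ^ (n i + n' i) := by
            rw [← pow_add, nn, aw, add_mul]
          have e4 : l ^ (e1 * d + j) = l ^ (e1 * (d - W (some i))) * l ^ n i := by
            rw [← pow_add, hn, ← add_assoc, aw]
          rw [e3, e4, mul_mul_mul_comm, h5, h6, mul_mul_mul_comm]) (J := J + 1) (by omega)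
      rw [h3, mul_div_cancel₀ _ (pow_ne_zero _ hl)] at h4
      exact (mul_left_cancel₀ (pow_ne_zero _ hl) h4).symm

end Pool.Agent.MP_776d16_ag.H36T
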