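import Mathlib

/-
The core of a weighted hypersurface in coordinates `t` (index `none`), `x i` (index
`some (inl i)`) and `y j` (index `some (inr j)`).
-/

namespace Pool.Agent.MP_776d16_ag.H36T

/-- The polynomial `G (0, x, 0)` in the variables `x i`. -/
noncomputable def core {ι κ : Type} (G : MvPolynomial (Option (ι ⊕ κ)) ℂ) : MvPolynomial ι ℂ :=
  MvPolynomial.aeval
    (fun o : Option (ι ⊕ κ) => o.elim 0 (Sum.elim MvPolynomial.X fun _ => 0)) G

end Pool.Agent.MP_776d16_ag.H36T
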