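import Pool.Agent.MP_776d16_ag.H34T.Tail
import Pool.Agent.MP_776d16_ag.H34T.All
import Pool.Agent.MP_776d16_ag.H34T.Bdry
import Pool.Agent.MP_776d16_ag.H34T.Twist
import Pool.Agent.MP_776d16_ag.H36T.Up
import Pool.Agent.MP_776d16_ag.H36T.PDefs

/-! Pairs whose boundary contains a core near the Fermat member. -/

set_option linter.unusedSectionVars false

namespace Pool.Agent.MP_776d16_ag.H36T

open Polynomial Pool.Agent.MP_776d16_ag.H34 Pool.Agent.MP_776d16_ag.H34G
open Pool.Agent.MP_776d16_ag.H34T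
open MvPolynomial (pderiv IsWeightedHomogeneous)

namespace PlusA

lemma homog_aeval {σ τ : Type} {W : σ → ℕ} {W' : τ → ℕ} {d : ℕ} {G : MvPolynomial σ ℂ}
    (hG : IsWeightedHomogeneous W G d) {f : σ → MvPolynomial τ ℂ}
    (hf : ∀ o, IsWeightedHomogeneous W' (f o) (W o)) :
    IsWeightedHomogeneous W' (MvPolynomial.aeval f G) d := by
  induction hG using MvPolynomial.IsWeightedHomogeneous.induction_on with
  | zero => rw [map_zero]; exact MvPolynomial.isWeightedHomogeneous_zero _ _ _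
  | add p q _ _ hp hq => rw [map_add]; exact hp.add hq
  | monomial μ r hr =>
    rw [MvPolynomial.aeval_monomial, MvPolynomial.algebraMap_eq, ← hr, Finsupp.weight_apply,
      Finsupp.prod, Finsupp.sum]
    exact MvPolynomial.IsWeightedHomogeneous.C_mul
      (MvPolynomial.IsWeightedHomogeneous.prod _ _ _ fun o _ => (hf o).pow _) _

/-- a curve through every point off the boundary, smooth or not -/
lemma tail0 (hGen : Gen) (hLim : Lim) {ι : Type} [Fintype ι] {W : Option ι → ℕ} {d : ℕ}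
    (hW : Wg W d) (hι : 2 ≤ Fintype.card ι) {G : MvPolynomial (Option ι) ℂ}
    (hG : IsWeightedHomogeneous W G d) (hgood : Good W d G) (r : Option ι → ℂ) (hr1 : r none = 1)
    (hr0 : MvPolynomial.eval r G = 0) :
    ∃ (e : ℕ) (x : Option ι → ℂ[X]) (v : Option ι → ℂ), 0 < e ∧ v ≠ 0 ∧ v none = 0 ∧
      (∀ o, (x o).natDegree ≤ e * W o) ∧ (∀ o, (x o).coeff 0 = r o) ∧
      (∀ o, (x o).coeff (e * W o) = v o) ∧ MvPolynomial.aeval x G = 0 ∧ x none = C 1 := by
  have hev : ∀ (y : ι → ℂ) (H : MvPolynomial (Option ι) ℂ), MvPolynomial.eval y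
      (MvPolynomial.aeval (fun o : Option ι => o.elim 1 MvPolynomial.X) H : MvPolynomial ι ℂ) =
        MvPolynomial.eval (fun o : Option ι => o.elim 1 y) H := fun y H => by
    have := TailA.aeval_slice y H
    rwa [MvPolynomial.aeval_eq_eval, MvPolynomial.aeval_eq_eval] at this
  have hre : (fun o : Option ι => o.elim 1 fun i => r (some i)) = r := by
    funext o
    rcases o with _ | i
    · exact hr1.symm
    · rfl
  have hf0 : (MvPolynomial.aeval (fun o : Option ι => o.elim 1 MvPolynomial.X) G :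
      MvPolynomial ι ℂ) ≠ 0 := by
    intro h0
    have h1 : MvPolynomial.X none * G = 0 := by
      refine MvPolynomial.funext fun v => ?_
      rw [map_mul, map_zero, MvPolynomial.eval_X]
      rcases eq_or_ne (v none) 0 with h | h
      · rw [h, zero_mul]
      obtain ⟨c, hc⟩ := IsAlgClosed.exists_pow_nat_eq (v none) (hW.pos none)
      have hc0 : c ≠ 0 := by
        rintro rfl
        rw [zero_pow (hW.pos none).ne'] at hc
        exact h hc.symm
      have h2 := eval_scale hG c fun o : Option ι => o.elim 1 fun i => v (some i) / c ^ W (some i)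
      rw [← hev, h0, map_zero, mul_zero] at h2
      have h3 : (fun o : Option ι => c ^ W o * o.elim 1 fun i => v (some i) / c ^ W (some i)) = v := by
        funext o
        rcases o with _ | i
        · simp [hc]
        · exact mul_div_cancel₀ _ (pow_ne_zero _ hc0)
      rw [← h3, h2, mul_zero]
    have h2 : G = 0 := (mul_eq_zero.1 h1).resolve_left (MvPolynomial.X_ne_zero _)
    obtain ⟨i⟩ : Nonempty ι := Fintype.card_pos_iff.1 (by omega)
    have h3 : (fun o : Option ι => o.elim (0 : ℂ) fun _ => 1) ≠ 0 := fun h =>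
      one_ne_zero (congrFun h (some i))
    obtain ⟨e, -, z, -, π, hz, -⟩ := hgood _ _ h3 h3 rfl rfl (by simp [h2]) (by simp [h2])
    obtain ⟨-, -, ⟨h, hh⟩, -⟩ := ends2 ℂ ι W d e hW G hG z _ π hz
    simp [h2] at hh
  obtain ⟨F, hF, hFd, hFr⟩ := TailA.prime_factor (fun i => r (some i)) _ hf0 (by rw [hev, hre, hr0])
  obtain ⟨K, _, _, _, y, hy⟩ := TailA.generic hF
  have htr : ∃ i, y i ∉ Set.range (algebraMap ℂ K) := by
    by_contra hcon
    push Not at hcon
    choose c hc using hcon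
    refine TailA.not_all hι hF.ne_zero hFr c fun i => (hy _).1 ?_
    rw [map_sub, MvPolynomial.aeval_X, MvPolynomial.aeval_C, hc, sub_self]
  obtain ⟨e, z, π, hz, hzn⟩ := hGen ι W d hW G hG hgood K (fun o : Option ι => o.elim 1 y) rfl
    (by rw [← TailA.aeval_slice]; exact (hy _).2 hFd) htr
  have hGK := homog_map (algebraMap ℂ K) hG
  obtain ⟨-, -, -, h, hh⟩ := ends2 K ι W d e hW _ hGK z _ π hz
  have hdeg : ∃ i, 0 < (z (some i)).natDegree := by
    by_contra hcon
    push Not at hcon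
    have hπ : π = 0 := by
      funext o
      rw [← hz.stop o]
      refine coeff_eq_zero_of_natDegree_lt (lt_of_le_of_lt ?_ (Nat.mul_pos hz.pos (hW.pos o)))
      rcases o with _ | i
      · rw [hzn, natDegree_C]
      · exact hcon i
    rw [hπ, Finset.sum_eq_zero fun i _ => by
      rw [eval_zero_of_pos (homog_pderiv hGK (some i) (hW.lt i).le)
        (Nat.sub_pos_of_lt (hW.lt i)), zero_mul]] at hh
    exact zero_ne_one hh
  obtain ⟨x, hx1, hx2, hx3, hx4⟩ := hLim ι G K z hzn hz.eqn hdeg (fun i => r (some i)) (by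
    intro f hf
    have h1 : (fun i => (z (some i)).coeff 0) = y := funext fun i => hz.start (some i)
    rw [h1, hy] at hf
    obtain ⟨A, rfl⟩ := hf
    rw [map_mul, hFr, zero_mul])
  refine TailA.finish hW.pos hx1 (fun o => ?_) hx3 hx4
  rcases o with _ | i
  · rw [hx1, hr1, coeff_C_zero]
  · exact hx2 i

/-- a tail through smooth points is upgraded by every very free curve of the boundary -/
lemma upg {ι : Type} [Fintype ι] {W : Option ι → ℕ} {d : ℕ} (hW : Wg W d)
    {G : MvPolynomial (Option ι) ℂ} (hG : IsWeightedHomogeneous W G d) {e1 : ℕ} (he1 : 0 < e1)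
    {x : Option ι → ℂ[X]} {r v : Option ι → ℂ} (hdeg : ∀ o, (x o).natDegree ≤ e1 * W o)
    (hst : ∀ o, (x o).coeff 0 = r o) (hen : ∀ o, (x o).coeff (e1 * W o) = v o)
    (hx : MvPolynomial.aeval x G = 0) (hx0 : x none = C (r none))
    {o0 : Option ι} (ho0 : x o0 = C (r o0)) (hr0 : r o0 ≠ 0)
    (hq : ∀ u : Option ι → ℂ, u o0 ≠ 0 → MvPolynomial.eval u G = 0 →
      ∃ i, MvPolynomial.eval u (pderiv (some i) G) ≠ 0)
    {e : ℕ} {y : Option ι → ℂ[X]} {π : Option ι → ℂ} (hy : Crv2 W d e G y v π)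
    (hy0 : y none = 0) :
    ∃ (e' : ℕ) (z : Option ι → ℂ[X]), Crv2 W d e' G z r π ∧ z none = C (r none) := by
  obtain ⟨-, -, hunit, -⟩ := ends2 ℂ ι W d e hW G hG _ _ _ hy
  have h0 : MvPolynomial.eval r G = 0 := by
    rw [← funext hst, ← coeff_zero_aeval, hx, coeff_zero]
  set q : Option ι → ℂ[X] := fun o => reflect (e1 * W o) (x o) with hqdef
  have hqdeg : ∀ o, (q o).natDegree ≤ e1 * W o := fun o =>
    natDegree_reflect_le.trans (max_le le_rfl (hdeg o))
  have hq0 : ∀ o, (q o).coeff 0 = v o := fun o => by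
    simp only [hqdef, coeff_reflect, revAt_zero, hen]
  have hq1 : ∀ o, (q o).coeff (e1 * W o) = r o := fun o => by
    simp only [hqdef, coeff_reflect, revAt_le le_rfl, Nat.sub_self, hst]
  have hqG : MvPolynomial.aeval q G = 0 := by
    rw [hqdef, ← reflect_aeval hG hdeg, hx, reflect_zero]
  have hqn : q none = C (r none) * X ^ (e1 * W none) := by
    simp only [hqdef, hx0, reflect_C]
  have hsub : ∀ i, e1 * d - e1 * W (some i) = e1 * (d - W (some i)) := fun i =>
    (Nat.mul_sub _ _ _).symm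
  obtain ⟨j, hj, honto⟩ := serre ι (fun i => MvPolynomial.aeval q (pderiv (some i) G)) (e1 * d)
    (fun i => e1 * W (some i)) (fun i => Nat.mul_le_mul_left _ (hW.lt i).le)
    (fun i => by
      rw [hsub]
      exact natDegree_aeval_le (homog_pderiv hG _ (hW.lt i).le) hqdeg)
    (fun s => by
      simp only [eval_aeval_poly]
      rcases eq_or_ne s 0 with rfl | hs
      · simp only [← coeff_zero_eq_eval_zero, hq0]
        by_contra hcon
        push Not at hcon
        obtain ⟨h, hh⟩ := hunit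
        simp [hcon] at hh
      · refine hq _ ?_ ?_
        · simp [hqdef, ho0, hr0, hs]
        · rw [← eval_aeval_poly, hqG, eval_zero])
    (by
      obtain ⟨i, hi⟩ := hq r hr0 h0
      refine ⟨i, ?_⟩
      rw [hsub, coeff_top_aeval (homog_pderiv hG _ (hW.lt i).le) hqdeg]
      simpa only [hq1] using hi)
  obtain ⟨g1, g2, g3, g4, g5, g6⟩ := expand' ι W d e (j + 1) hW j.succ_pos G y v π hy
  obtain ⟨μ, z, hμ, hz, hz0⟩ := upgrade ι W d e1 ((j + 1) * e) j hW he1 hj
    (fun i => by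
      have h1 : 0 < e * W (some i) := Nat.mul_pos hy.pos (hW.pos _)
      rw [mul_assoc]
      exact (Nat.lt_succ_self j).trans_le (Nat.le_mul_of_pos_right _ h1))
    G hG q (fun o => expand ℂ (j + 1) (y o)) v r π hqdeg hq0 hq1 hqG hqn honto g1 g2 g3 g4
    (by simp [hy0]) (fun o b h1 h2 => g5 o b h1 (Nat.lt_succ_of_le h2)) g6 hunit
  obtain ⟨c, hc⟩ := IsAlgClosed.exists_pow_nat_eq μ hz.pos
  have hc0 : c ≠ 0 := by
    rintro rfl
    rw [zero_pow hz.pos.ne'] at hc
    exact hμ hc.symm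
  have h1 := reparam ι W d _ G _ _ _ c hc0 (scale2 ℂ ι W d _ hW G hG _ _ _ μ⁻¹ (inv_ne_zero hμ) hz)
  have e1' : (fun o => μ⁻¹ ^ W o * (μ ^ W o * r o)) = r := funext fun o => by
    rw [← mul_assoc, ← mul_pow, inv_mul_cancel₀ hμ, one_pow, one_mul]
  have e2' : (fun o => c ^ ((e1 + (j + 1) * e) * W o) * (μ⁻¹ ^ W o * π o)) = π :=
    funext fun o => by
      rw [pow_mul, hc, ← mul_assoc, ← mul_pow, mul_inv_cancel₀ hμ, one_pow, one_mul]
  rw [e1', e2'] at h1
  refine ⟨_, _, h1, ?_⟩
  simp only [hz0, ← C_mul, C_comp]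
  rw [← mul_assoc, ← mul_pow, inv_mul_cancel₀ hμ, one_pow, one_mul]

section
variable {ι κ : Type} (W : Option (ι ⊕ κ) → ℕ)

/-- weights of the slice -/
def ws : Option ι → ℕ := fun o => o.elim 1 fun i => W (some (Sum.inl i))

/-- the slice through the point `r` -/
noncomputable def sb (r : Option (ι ⊕ κ) → ℂ) : Option (ι ⊕ κ) → MvPolynomial (Option ι) ℂ
  | none => MvPolynomial.C (r none) * MvPolynomial.X none ^ W none
  | some (Sum.inl i) => MvPolynomial.X (some i)
  | some (Sum.inr j) => MvPolynomial.C (r (some (Sum.inr j))) *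
      MvPolynomial.X none ^ W (some (Sum.inr j))

lemma sb_homog (r : Option (ι ⊕ κ) → ℂ) (o : Option (ι ⊕ κ)) :
    IsWeightedHomogeneous (ws W) (sb W r o) (W o) := by
  have h : ∀ n, IsWeightedHomogeneous (ws W) (MvPolynomial.X none ^ n : MvPolynomial _ ℂ) n :=
    fun n => by simpa [ws] using (MvPolynomial.isWeightedHomogeneous_X ℂ (ws W) none).pow n
  rcases o with _ | i | j
  · exact (h _).C_mul _
  · exact MvPolynomial.isWeightedHomogeneous_X ℂ (ws W) (some i)
  · exact (h _).C_mul _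

variable {W}

lemma atD_sb (hW : ∀ o, 0 < W o) (r : Option (ι ⊕ κ) → ℂ) (G : MvPolynomial (Option (ι ⊕ κ)) ℂ) :
    atD (MvPolynomial.aeval (sb W r) G) = core G := by
  rw [atD, MvPolynomial.comp_aeval_apply, core]
  congr 2
  funext o
  rcases o with _ | i | j <;> simp [sb, (hW _).ne']

lemma pd_sb (r : Option (ι ⊕ κ) → ℂ) (G : MvPolynomial (Option (ι ⊕ κ)) ℂ) (i : ι) :
    pderiv (some i) (MvPolynomial.aeval (sb W r) G) =
      MvPolynomial.aeval (sb W r) (pderiv (some (Sum.inl i)) G) := by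
  classical
  induction G using MvPolynomial.induction_on with
  | C r => simp
  | add p q hp hq => simp only [map_add, hp, hq]
  | mul_X p o hp =>
    simp only [Derivation.leibniz, smul_eq_mul, map_add, map_mul, hp, MvPolynomial.aeval_X]
    congr 2
    rcases o with _ | i' | j
    · simp [sb]
    · by_cases h : i' = i
      · subst h; simp [sb]
      · simp [sb, MvPolynomial.pderiv_X, h]
    · simp [sb]

variable [Fintype ι] [Fintype κ] {d : ℕ} {G : MvPolynomial (Option (ι ⊕ κ)) ℂ}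

lemma crv_core {e : ℕ} {z : Option ι → ℂ[X]} {r π : Option ι → ℂ}
    (h : Crv2 (ws W) d e (MvPolynomial.aeval (sb W 0) G) z r π) :
    Crv2 W d e G (fun o => MvPolynomial.aeval z (sb W 0 o)) (fun o => MvPolynomial.eval r (sb W 0 o))
      fun o => MvPolynomial.eval π (sb W 0 o) := by
  refine ⟨h.pos, fun o => natDegree_aeval_le (sb_homog W 0 o) h.deg, fun o => ?_, fun o => ?_, ?_,
    fun f hf => ?_⟩
  · rw [coeff_zero_aeval, funext h.start]
  · rw [coeff_top_aeval (sb_homog W 0 o) h.deg, funext h.stop]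
  · rw [← MvPolynomial.comp_aeval_apply, h.eqn]
  · obtain ⟨k, h1, h2⟩ := h.vf f hf
    refine ⟨Sum.elim k fun _ => 0, ?_, ?_⟩
    · rintro (i | j)
      · exact h1 i
      · exact degree_zero.trans_lt (WithBot.bot_lt_coe _)
    · simp only [Fintype.sum_sum_type, Sum.elim_inl, Sum.elim_inr, mul_zero,
        Finset.sum_const_zero, add_zero, ← MvPolynomial.comp_aeval_apply, ← pd_sb]
      exact h2

end

end PlusA

open PlusA in
theorem plus (hGen : Gen) (hLim : Lim) {ι κ : Type} [Fintype ι] [Fintype κ]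
    {W : Option (ι ⊕ κ) → ℕ} {d : ℕ} (hW : Wg W d) (hι : 2 ≤ Fintype.card ι)
    {G : MvPolynomial (Option (ι ⊕ κ)) ℂ} (hG : IsWeightedHomogeneous W G d)
    (hgood : ∀ H : MvPolynomial (Option ι) ℂ, IsWeightedHomogeneous (ws W) H d → atD H = core G →
      Good (ws W) d H)
    (hX : ∀ v : Option (ι ⊕ κ) → ℂ, v none ≠ 0 → MvPolynomial.eval v G = 0 →
      ∃ o, MvPolynomial.eval v (pderiv o G) ≠ 0)
    (hD : ∀ v : Option (ι ⊕ κ) → ℂ, v none = 0 → (∃ j, v (some (Sum.inr j)) ≠ 0) →
      MvPolynomial.eval v G = 0 → ∃ i, MvPolynomial.eval v (pderiv (some i) G) ≠ 0) :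
    LogRC W (zs W G) (zsD W G) := by
  have hWs : Wg (ws W) d := ⟨fun o => by
    rcases o with _ | i
    · exact one_pos
    · exact hW.pos _, fun i => hW.lt _, hW.two⟩
  have hgd : ∀ r, Good (ws W) d (MvPolynomial.aeval (sb W r) G) := fun r =>
    hgood _ (homog_aeval hG (sb_homog W r)) (atD_sb hW.pos r G)
  have reach : ∀ r : Option (ι ⊕ κ) → ℂ, r ≠ 0 → MvPolynomial.eval r G = 0 →
      ∃ v : Option ι → ℂ, v ≠ 0 ∧ v none = 0 ∧
        MvPolynomial.eval v (MvPolynomial.aeval (sb W 0) G) = 0 ∧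
        ∀ (e : ℕ) (y : Option (ι ⊕ κ) → ℂ[X]) (π : Option (ι ⊕ κ) → ℂ),
          Crv2 W d e G y (fun o => MvPolynomial.eval v (sb W 0 o)) π → y none = 0 →
          ∃ (e' : ℕ) (z : Option (ι ⊕ κ) → ℂ[X]), Crv2 W d e' G z r π ∧ z none = C (r none) := by
    intro r hr h0
    have hev : ∀ (s : Option (ι ⊕ κ) → ℂ) (u : Option ι → ℂ),
        MvPolynomial.eval u (MvPolynomial.aeval (sb W s) G) =
          MvPolynomial.eval (fun o => MvPolynomial.eval u (sb W s o)) G := fun s u => by
      simp only [← MvPolynomial.aeval_eq_eval]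
      exact MvPolynomial.comp_aeval_apply _ _ _
    by_cases hc : r none = 0 ∧ ∀ j, r (some (Sum.inr j)) = 0
    · have h1 : (fun o => MvPolynomial.eval (fun o' : Option ι => o'.elim 0
          fun i => r (some (Sum.inl i))) (sb W 0 o)) = r := by
        funext o
        rcases o with _ | i | j <;> simp [sb, hc.1, hc.2]
      refine ⟨fun o => o.elim 0 fun i => r (some (Sum.inl i)), fun h => hr ?_, rfl,
        by rw [hev, h1, h0], fun e y π h2 h3 => ⟨e, y, h1 ▸ h2, by rw [h3, hc.1, C_0]⟩⟩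
      funext o
      rcases o with _ | i | j
      · exact hc.1
      · exact congrFun h (some i)
      · exact hc.2 j
    · have h1 : (fun o => MvPolynomial.eval (fun o' : Option ι => o'.elim 1
          fun i => r (some (Sum.inl i))) (sb W r o)) = r := by
        funext o
        rcases o with _ | i | j <;> simp [sb]
      obtain ⟨e1, x, v, he1, hv, hv0, hdeg, hst, hen, hx, hx0⟩ := tail0 hGen hLim hWs hι
        (homog_aeval hG (sb_homog W r)) (hgd r) (fun o => o.elim 1 fun i => r (some (Sum.inl i)))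
        rfl (by rw [hev, h1, h0])
      have h2 : ∀ o, MvPolynomial.eval v (sb W r o) = MvPolynomial.eval v (sb W 0 o) := by
        rintro (_ | i | j) <;> simp [sb, hv0, (hW.pos _).ne']
      have h3 : MvPolynomial.eval v (MvPolynomial.aeval (sb W r) G) = 0 := by
        rw [← funext hen, ← coeff_top_aeval (homog_aeval hG (sb_homog W r)) hdeg, hx, coeff_zero]
      refine ⟨v, hv, hv0, by rw [hev, ← funext h2, ← hev, h3], fun e y π hy hy0 => ?_⟩
      obtain ⟨o0, a1, a2, a3⟩ : ∃ o0, MvPolynomial.aeval x (sb W r o0) = C (r o0) ∧ r o0 ≠ 0 ∧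
          ∀ u : Option (ι ⊕ κ) → ℂ, u o0 ≠ 0 → MvPolynomial.eval u G = 0 →
            ∃ i, MvPolynomial.eval u (pderiv (some i) G) ≠ 0 := by
        by_cases h4 : r none = 0
        · obtain ⟨j, hj⟩ := not_forall.1 fun h => hc ⟨h4, h⟩
          refine ⟨some (Sum.inr j), by simp [sb, hx0], hj, fun u hu h5 => ?_⟩
          by_cases h6 : u none = 0
          · exact hD u h6 ⟨j, hu⟩ h5
          · exact AllA.grad hG hX hW u h6 h5
        · exact ⟨none, by simp [sb, hx0], h4, AllA.grad hG hX hW⟩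
      refine upg hW hG he1 (x := fun o => MvPolynomial.aeval x (sb W r o))
        (fun o => natDegree_aeval_le (sb_homog W r o) hdeg) (fun o => ?_) (fun o => ?_) ?_
        (by simp [sb, hx0]) a1 a2 a3 hy hy0
      · rw [coeff_zero_aeval, funext hst]
        exact congrFun h1 o
      · rw [coeff_top_aeval (sb_homog W r o) hdeg, funext hen, h2]
      · rw [← MvPolynomial.comp_aeval_apply, hx]
  refine final2 _ W d hW G hG ?_
  intro r1 r2 k hk h1 h2 hr2 e1 e2
  have hr1 : r1 ≠ 0 := by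
    rintro rfl
    exact zero_ne_one h1
  obtain ⟨v1, a1, b1, c1, k1⟩ := reach r1 hr1 e1
  obtain ⟨v2, a2, b2, c2, k2⟩ := reach r2 hr2 e2
  obtain ⟨n1, n2, y1, y2, π, p1, p2, -, -⟩ := hgd 0 v1 v2 a1 a2 b1 b2 c1 c2
  obtain ⟨m1, z1, s1, u1⟩ := k1 _ _ _ (crv_core p1) (by simp [sb])
  obtain ⟨m2, z2, s2, u2⟩ := k2 _ _ _ (crv_core p2) (by simp [sb])
  refine glue2 ends2 sl2 _ W d m1 m2 hW G hG _ _ _ r1 r2 k hk
    (reflect2 ℂ _ W d m1 hW G hG _ _ _ s1) ?_ (reflect2 ℂ _ W d m2 hW G hG _ _ _ s2) ?_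
  · rw [u1, h1, reflect_C, C_1, one_mul]
  · rw [u2, h2, reflect_C]

end Pool.Agent.MP_776d16_ag.H36T
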