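import Mathlib
import Pool.Agent.MP_776d16_ag.H34T.Gen
import Pool.Agent.MP_776d16_ag.H34T.Lim
import Pool.Agent.MP_776d16_ag.H36T.Plus

namespace Pool.Agent.MP_776d16_ag.H36T.FermatCore

open MvPolynomial Pool.Agent.MP_776d16_ag.H34 Pool.Agent.MP_776d16_ag.H34G
open Pool.Agent.MP_776d16_ag.H36T

theorem result (m : ℕ) (hm : 4 ≤ m) (a w : Fin m → ℕ) (d : ℕ) (hd : 0 < d)
    (ha : ∀ i, 2 ≤ a i) (hw : ∀ i, a i * w i = d) (hF : d < ∑ i, w i) :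
    ∃ Δ : MvPolynomial (Fin m →₀ ℕ) ℂ,
      eval (fun μ => coeff μ (∑ i, X i ^ a i : MvPolynomial (Fin m) ℂ)) Δ ≠ 0 ∧
      ∀ (n : ℕ) (W : Option (Fin m ⊕ Fin n) → ℕ), 0 < W none →
        (∀ i, W (some (Sum.inl i)) = w i) →
        (∀ j, 0 < W (some (Sum.inr j)) ∧ W (some (Sum.inr j)) < d) →
        ∀ G : MvPolynomial (Option (Fin m ⊕ Fin n)) ℂ, IsWeightedHomogeneous W G d →
        eval (fun μ => coeff μ (core G)) Δ ≠ 0 →
        (∀ v : Option (Fin m ⊕ Fin n) → ℂ, v none ≠ 0 → eval v G = 0 →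
          ∃ o, eval v (pderiv o G) ≠ 0) →
        (∀ v : Option (Fin m ⊕ Fin n) → ℂ, v none = 0 → (∃ j, v (some (Sum.inr j)) ≠ 0) →
          eval v G = 0 → ∃ i, eval v (pderiv (some i) G) ≠ 0) →
        LogRC W (zs W G) (zsD W G) := by
  have hc : 4 ≤ Fintype.card (Fin m) := by simpa using hm
  obtain ⟨Δ, h1, h2⟩ := H34T.bdry' (Fin m) a w d ⟨hw, ha, hd, hc, hF⟩
  refine ⟨Δ, h1, fun n W h0 hi hj G hG hΔ hX hD => ?_⟩
  have hp : ∀ i, 0 < w i := fun i => Nat.pos_of_mul_pos_left (hw i ▸ hd)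
  have hl : ∀ i, 2 * w i ≤ d := fun i => hw i ▸ Nat.mul_le_mul_right _ (ha i)
  refine plus (H34T.gen H34T.specPt) (H34T.lim H34T.specPt) ⟨?_, ?_, ?_⟩ (by omega) hG
    (fun H hH hHG => h2 _ hi one_pos H hH (by rwa [hHG])) hX hD
  · rintro (_ | i | j)
    · exact h0
    · rw [hi]; exact hp i
    · exact (hj j).1
  · rintro (i | j)
    · have := hp i; have := hl i; rw [hi]; omega
    · exact (hj j).2
  · have := hp ⟨0, by omega⟩; have := hl ⟨0, by omega⟩; omega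

end Pool.Agent.MP_776d16_ag.H36T.FermatCore
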